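import Pool.Agent.H933.LL.Stm7

/-!
# P_walg: the Wiener algebra of absolutely convergent Fourier series
-/

set_option autoImplicit false

open MeasureTheory Metric AddCircle
open scoped Real

namespace Pool.Agent.H696.LL

open Pool.Agent.H933.LL

/-- the Fourier coefficient as a continuous linear functional -/
noncomputable def coeffL (n : ℤ) : C(UnitAddCircle, ℂ) →L[ℂ] ℂ :=
  (innerSL ℂ (fourierLp (T := 1) 2 n)).comp (ContinuousMap.toLp (E := ℂ) 2 haarAddCircle ℂ)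

lemma coeffL_apply (n : ℤ) (f : C(UnitAddCircle, ℂ)) : coeffL n f = fourierCoeff f n := by
  rw [coeffL, ContinuousLinearMap.comp_apply, innerSL_apply_apply, ← fourierCoeff_toLp,
    ← fourierBasis_repr, HilbertBasis.repr_apply_apply, coe_fourierBasis]

lemma coeff_add (F G : C(UnitAddCircle, ℂ)) (n : ℤ) :
    fourierCoeff (F + G : C(UnitAddCircle, ℂ)) n = fourierCoeff F n + fourierCoeff G n := by
  rw [← coeffL_apply, ← coeffL_apply, ← coeffL_apply, map_add]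

lemma coeff_smul (F : C(UnitAddCircle, ℂ)) (z : ℂ) (n : ℤ) :
    fourierCoeff (z • F : C(UnitAddCircle, ℂ)) n = z * fourierCoeff F n := by
  rw [← coeffL_apply, ← coeffL_apply, map_smul, smul_eq_mul]

lemma coeff_fourier_mul (G : C(UnitAddCircle, ℂ)) (n k : ℤ) :
    fourierCoeff (fourier n * G : C(UnitAddCircle, ℂ)) k = fourierCoeff G (k - n) := by
  unfold fourierCoeff
  refine integral_congr_ae (Filter.Eventually.of_forall fun t => ?_)
  have h : (fourier (-(k - n)) t : ℂ) = fourier (-k) t * fourier n t := by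
    rw [← fourier_add]
    congr 2
    ring
  simp only [ContinuousMap.mul_apply, smul_eq_mul]
  rw [h, mul_assoc]

lemma summ {F : C(UnitAddCircle, ℂ)} {m : ℝ} (h : WN F m) : Summable (fourierCoeff F) :=
  h.1.of_norm

lemma hs {F : C(UnitAddCircle, ℂ)} {m : ℝ} (h : WN F m) :
    HasSum (fun i : ℤ => fourierCoeff F i • (fourier i : C(UnitAddCircle, ℂ))) F :=
  hasSum_fourier_series_of_summable (summ h)

lemma coeff_mul {F : C(UnitAddCircle, ℂ)} {m : ℝ} (h : WN F m) (G : C(UnitAddCircle, ℂ)) (k : ℤ) :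
    HasSum (fun n : ℤ => fourierCoeff F n * fourierCoeff G (k - n))
      (fourierCoeff (F * G : C(UnitAddCircle, ℂ)) k) := by
  have h1 := ((hs h).mul_right G).mapL (coeffL k)
  rw [coeffL_apply] at h1
  refine h1.congr_fun ?_
  intro n
  rw [smul_mul_assoc, map_smul, coeffL_apply, coeff_fourier_mul, smul_eq_mul]

lemma nn {F : C(UnitAddCircle, ℂ)} {m : ℝ} (h : WN F m) : 0 ≤ m :=
  (tsum_nonneg fun _ => norm_nonneg _).trans h.2

lemma wn_mul (F G : C(UnitAddCircle, ℂ)) (m m' : ℝ) (hF : WN F m) (hG : WN G m') :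
    WN (F * G) (m * m') := by
  have h0 : Summable fun p : ℤ × ℤ => ‖fourierCoeff F p.1‖ * ‖fourierCoeff G p.2‖ :=
    hF.1.mul_of_nonneg hG.1 (fun _ => norm_nonneg _) (fun _ => norm_nonneg _)
  set e : ℤ × ℤ ≃ ℤ × ℤ :=
    { toFun := fun p => (p.2, p.1 - p.2)
      invFun := fun p => (p.1 + p.2, p.1)
      left_inv := fun p => by ext <;> simp
      right_inv := fun p => by ext <;> simp } with he
  have h1 : Summable fun p : ℤ × ℤ => ‖fourierCoeff F p.2‖ * ‖fourierCoeff G (p.1 - p.2)‖ :=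
    (e.summable_iff (f := fun p : ℤ × ℤ => ‖fourierCoeff F p.1‖ * ‖fourierCoeff G p.2‖)).2 h0
  have h2 : ∑' p : ℤ × ℤ, ‖fourierCoeff F p.2‖ * ‖fourierCoeff G (p.1 - p.2)‖ =
      (∑' n : ℤ, ‖fourierCoeff F n‖) * ∑' n : ℤ, ‖fourierCoeff G n‖ := by
    rw [hF.1.tsum_mul_tsum hG.1 h0]
    exact e.tsum_eq (fun p : ℤ × ℤ => ‖fourierCoeff F p.1‖ * ‖fourierCoeff G p.2‖)
  have hf : ∀ k : ℤ, Summable fun n : ℤ => ‖fourierCoeff F n‖ * ‖fourierCoeff G (k - n)‖ :=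
    fun k => h1.prod_factor k
  have hb : ∀ k : ℤ, ‖fourierCoeff (F * G : C(UnitAddCircle, ℂ)) k‖ ≤
      ∑' n : ℤ, ‖fourierCoeff F n‖ * ‖fourierCoeff G (k - n)‖ := by
    intro k
    rw [← (coeff_mul hF G k).tsum_eq]
    refine (norm_tsum_le_tsum_norm ?_).trans (le_of_eq ?_)
    · simpa only [norm_mul] using hf k
    · simp only [norm_mul]
  have hs : Summable fun k : ℤ => ∑' n : ℤ, ‖fourierCoeff F n‖ * ‖fourierCoeff G (k - n)‖ :=
    h1.prod
  have hS : Summable fun k : ℤ => ‖fourierCoeff (F * G : C(UnitAddCircle, ℂ)) k‖ :=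
    Summable.of_nonneg_of_le (fun _ => norm_nonneg _) hb hs
  refine ⟨hS, ?_⟩
  calc ∑' k : ℤ, ‖fourierCoeff (F * G : C(UnitAddCircle, ℂ)) k‖
      ≤ ∑' k : ℤ, ∑' n : ℤ, ‖fourierCoeff F n‖ * ‖fourierCoeff G (k - n)‖ :=
        hS.tsum_le_tsum hb hs
    _ = ∑' p : ℤ × ℤ, ‖fourierCoeff F p.2‖ * ‖fourierCoeff G (p.1 - p.2)‖ :=
        (h1.tsum_prod).symm
    _ = (∑' n : ℤ, ‖fourierCoeff F n‖) * ∑' n : ℤ, ‖fourierCoeff G n‖ := h2
    _ ≤ m * m' := mul_le_mul hF.2 hG.2 (tsum_nonneg fun _ => norm_nonneg _) (nn hF)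

lemma wn_add (F G : C(UnitAddCircle, ℂ)) (m m' : ℝ) (hF : WN F m) (hG : WN G m') :
    WN (F + G) (m + m') := by
  have hb : ∀ k : ℤ, ‖fourierCoeff (F + G : C(UnitAddCircle, ℂ)) k‖ ≤
      ‖fourierCoeff F k‖ + ‖fourierCoeff G k‖ := by
    intro k
    rw [coeff_add]
    exact norm_add_le _ _
  have hS : Summable fun k : ℤ => ‖fourierCoeff (F + G : C(UnitAddCircle, ℂ)) k‖ :=
    Summable.of_nonneg_of_le (fun _ => norm_nonneg _) hb (hF.1.add hG.1)
  refine ⟨hS, ?_⟩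
  calc ∑' k : ℤ, ‖fourierCoeff (F + G : C(UnitAddCircle, ℂ)) k‖
      ≤ ∑' k : ℤ, (‖fourierCoeff F k‖ + ‖fourierCoeff G k‖) :=
        hS.tsum_le_tsum hb (hF.1.add hG.1)
    _ = (∑' k : ℤ, ‖fourierCoeff F k‖) + ∑' k : ℤ, ‖fourierCoeff G k‖ := hF.1.tsum_add hG.1
    _ ≤ m + m' := add_le_add hF.2 hG.2

lemma wn_smul (F : C(UnitAddCircle, ℂ)) (m : ℝ) (z : ℂ) (hF : WN F m) :
    WN (z • F) (‖z‖ * m) := by
  have hb : ∀ k : ℤ, ‖fourierCoeff (z • F : C(UnitAddCircle, ℂ)) k‖ =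
      ‖z‖ * ‖fourierCoeff F k‖ := by
    intro k
    rw [coeff_smul, norm_mul]
  unfold WN
  simp only [hb]
  refine ⟨hF.1.mul_left _, ?_⟩
  rw [tsum_mul_left]
  exact mul_le_mul_of_nonneg_left hF.2 (norm_nonneg z)

lemma wn_norm (F : C(UnitAddCircle, ℂ)) (m : ℝ) (hF : WN F m) : ‖F‖ ≤ m := by
  have h1 : ∀ i : ℤ, ‖fourierCoeff F i • (fourier i : C(UnitAddCircle, ℂ))‖ =
      ‖fourierCoeff F i‖ := by
    intro i
    rw [norm_smul, fourier_norm, mul_one]
  rw [← (hs hF).tsum_eq]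
  refine (norm_tsum_le_tsum_norm ?_).trans ?_
  · simpa only [h1] using hF.1
  · simpa only [h1] using hF.2

lemma wn_lim (F : ℕ → C(UnitAddCircle, ℂ)) (G : C(UnitAddCircle, ℂ)) (m : ℝ)
    (hF : ∀ j, WN (F j) m) (hG : Filter.Tendsto F Filter.atTop (nhds G)) : WN G m := by
  have h1 : ∀ n : ℤ, Filter.Tendsto (fun j => ‖fourierCoeff (F j) n‖) Filter.atTop
      (nhds ‖fourierCoeff G n‖) := by
    intro n
    have h2 := ((coeffL n).continuous.tendsto G).comp hG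
    have h3 := h2.norm
    rw [coeffL_apply] at h3
    refine h3.congr ?_
    intro j
    rw [Function.comp_apply, coeffL_apply]
  have h2 : ∀ s : Finset ℤ, ∑ n ∈ s, ‖fourierCoeff G n‖ ≤ m := by
    intro s
    refine le_of_tendsto (tendsto_finsetSum s fun n _ => h1 n) ?_
    refine Filter.Eventually.of_forall fun j => ?_
    exact ((hF j).1.sum_le_tsum s fun _ _ => norm_nonneg _).trans (hF j).2
  have hS : Summable fun n : ℤ => ‖fourierCoeff G n‖ :=
    summable_of_sum_le (fun _ => norm_nonneg _) h2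
  exact ⟨hS, hS.tsum_le_of_sum_le h2⟩

/-- **P_walg** -/
theorem p_walg : P_walg :=
  ⟨wn_mul, wn_add, wn_smul, wn_norm, wn_lim⟩

end Pool.Agent.H696.LL
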